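import Mathlib

/-!
# MP_aceab8_an (Q2): periodic billiard orbits of the regular tetrahedron have an even number of bounces

Let `N₀, …, N₃` be the vectors `(1,1,1), (1,-1,-1), (-1,1,-1), (-1,-1,1)`, which are normal to the
faces in suitable orthonormal coordinates; `Nᵢ ⬝ Nⱼ = -1` for `i ≠ j`.  The linear part of the
reflection in face `i` is `1 - (2/3) Nᵢ Nᵢᵀ`.  If a periodic orbit had an odd number `n` of bounces,
the product `R` of the linear parts would be orthogonal with determinant `-1` and fix the velocity,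
so `tr R = 1`.  But modulo `3` the integer matrix `3ⁿ R` is `± N_f Nₑᵀ`, where `f ≠ e` are the last and
the first face of the orbit, and has trace `± 1`.
-/

set_option autoImplicit false

namespace Pool.Agent.Results.MP_aceab8_an.EvenBounces

open Matrix

/-- The Euclidean space `ℝ³`. -/
abbrev E3 := EuclideanSpace ℝ (Fin 3)

/-- A billiard trajectory in the tetrahedron `T`, described by its bounces: the `k`-th bounce takes
place at the point `q k` of the relative interior of the face `face k` (the face opposite to the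
vertex number `face k`), and `v k` is the unit velocity after this bounce.  Between two bounces the
point moves along a straight segment inside `T`, and at each bounce the velocity `v` is replaced by
`v - 2 ⟨v, n⟩ n`, where `n` is a unit normal of the face. -/
structure IsBilliardTrajectory (T : Affine.Simplex ℝ E3 3) (face : ℕ → Fin 4) (q v : ℕ → E3) :
    Prop where
  unit : ∀ k, ‖v k‖ = 1
  mem_face : ∀ k, q k ∈ (T.faceOpposite (face k)).interior
  flight : ∀ k, ∃ t : ℝ, 0 < t ∧ q (k + 1) = q k + t • v k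
  inside : ∀ k, openSegment ℝ (q k) (q (k + 1)) ⊆ T.interior
  bounce : ∀ k, ∃ n : E3, ‖n‖ = 1 ∧
    (∀ i j, i ≠ face (k + 1) → j ≠ face (k + 1) → inner ℝ n (T.points i - T.points j) = 0) ∧
    v (k + 1) = v k - (2 * inner ℝ (v k) n) • n

/-- `T` has a periodic billiard orbit with `n` bounces: `n ≥ 1` is the least number of bounces after
which the trajectory returns to its initial point with its initial velocity. -/
def HasPeriodicOrbit (T : Affine.Simplex ℝ E3 3) (n : ℕ) : Prop :=
  ∃ (face : ℕ → Fin 4) (q v : ℕ → E3), IsBilliardTrajectory T face q v ∧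
    IsLeast {m : ℕ | 1 ≤ m ∧ q m = q 0 ∧ v m = v 0} n

/-! ### Linear algebra -/

theorem trace_eq_one (M : Matrix (Fin 3) (Fin 3) ℝ) (hM : M * Mᵀ = 1) (hdet : M.det = -1)
    (x : Fin 3 → ℝ) (hx : x ≠ 0) (hMx : M *ᵥ x = x) : M.trace = 1 := by
  have hadj : M.adjugate = -Mᵀ := by
    have h1 : M.adjugate * (M * Mᵀ) = M.adjugate := by rw [hM, mul_one]
    rw [← mul_assoc, adjugate_mul, hdet] at h1
    rw [← h1]; simp
  have hsing : (M - 1).det = 0 := by
    rw [← Matrix.exists_mulVec_eq_zero_iff]
    refine ⟨x, hx, ?_⟩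
    rw [sub_mulVec, hMx, one_mulVec, sub_self]
  have hexp : (M - 1).det = M.det - M.adjugate.trace + M.trace - 1 := by
    rw [adjugate_fin_three, det_fin_three, det_fin_three, trace_fin_three, trace_fin_three]
    simp
    ring
  rw [hsing, hdet, hadj, trace_neg, trace_transpose] at hexp
  linarith

/-- the sign vectors -/
def s : Fin 4 → Fin 3 → ℤ := ![![1, 1, 1], ![1, -1, -1], ![-1, 1, -1], ![-1, -1, 1]]

theorem s_dot {i j : Fin 4} (h : i ≠ j) : s i ⬝ᵥ s j = -1 := by
  revert h; revert i j; decide

/-- the linear part of the reflection in face `i` -/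
noncomputable def A (i : Fin 4) : Matrix (Fin 3) (Fin 3) ℝ :=
  Matrix.of fun a b => (if a = b then 1 else 0) - 2 / 3 * (s i a : ℝ) * (s i b : ℝ)

/-- the integer matrix `3 A i` -/
def B (i : Fin 4) : Matrix (Fin 3) (Fin 3) ℤ :=
  Matrix.of fun a b => (if a = b then 3 else 0) - 2 * s i a * s i b

theorem B_eq (i : Fin 4) : (B i).map (Int.cast : ℤ → ℝ) = (3 : ℝ) • A i := by
  ext a b
  simp only [B, A, map_apply, of_apply, Matrix.smul_apply, smul_eq_mul]
  split_ifs
  · push_cast; ring
  · push_cast; ring

theorem A_orth (i : Fin 4) : A i * (A i)ᵀ = 1 := by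
  ext a b
  fin_cases i <;> fin_cases a <;> fin_cases b <;>
    simp [A, s, Matrix.mul_apply, Fin.sum_univ_three] <;> norm_num

theorem A_det (i : Fin 4) : (A i).det = -1 := by
  rw [det_fin_three]
  fin_cases i <;> simp [A, s] <;> norm_num

/-- product of the linear parts of the bounces `1, …, k` -/
noncomputable def P (face : ℕ → Fin 4) : ℕ → Matrix (Fin 3) (Fin 3) ℝ
  | 0 => 1
  | k + 1 => A (face (k + 1)) * P face k

/-- the integer version -/
def Q (face : ℕ → Fin 4) : ℕ → Matrix (Fin 3) (Fin 3) ℤ
  | 0 => 1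
  | k + 1 => B (face (k + 1)) * Q face k

theorem Q_eq (face : ℕ → Fin 4) (k : ℕ) :
    (Q face k).map (Int.cast : ℤ → ℝ) = (3 : ℝ) ^ k • P face k := by
  induction k with
  | zero => simp [Q, P]
  | succ k ih =>
    have h1 : (Q face (k + 1)).map (Int.cast : ℤ → ℝ)
        = (B (face (k + 1))).map (Int.cast : ℤ → ℝ) * (Q face k).map (Int.cast : ℤ → ℝ) := by
      show ((B (face (k + 1)) * Q face k)).map (Int.castRingHom ℝ) = _
      rw [Matrix.map_mul]
      rfl
    rw [h1, B_eq, ih, P, smul_mul_smul_comm, ← pow_succ']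

theorem P_orth (face : ℕ → Fin 4) (k : ℕ) : P face k * (P face k)ᵀ = 1 := by
  induction k with
  | zero => simp [P]
  | succ k ih =>
    rw [P, transpose_mul, ← mul_assoc, mul_assoc (A _), ih, mul_one, A_orth]

theorem P_det (face : ℕ → Fin 4) (k : ℕ) : (P face k).det = (-1) ^ k := by
  induction k with
  | zero => simp [P]
  | succ k ih => rw [P, det_mul, ih, A_det, pow_succ']

/-- modulo `3` the product has rank one -/
theorem Q_mod (face : ℕ → Fin 4) (hf : ∀ k, face k ≠ face (k + 1)) (k : ℕ) (a b : Fin 3) :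
    ∃ c : ℤ, Q face (k + 1) a b = (-1) ^ k * (s (face (k + 1)) a * s (face 1) b) + 3 * c := by
  induction k generalizing a with
  | zero =>
    have h1 : Q face (0 + 1) = B (face 1) := by simp [Q]
    rw [h1]
    simp only [B, of_apply]
    split_ifs
    · exact ⟨1 - s (face 1) a * s (face 1) b, by ring⟩
    · exact ⟨- s (face 1) a * s (face 1) b, by ring⟩
  | succ k ih =>
    choose c hc using ih
    have h1 : Q face (k + 1 + 1) a b
        = ∑ d, B (face (k + 1 + 1)) a d * Q face (k + 1) d b := by
      rw [Q, Matrix.mul_apply]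
    have hdot : ∑ d, s (face (k + 1 + 1)) d * s (face (k + 1)) d = -1 := by
      have := s_dot (hf (k + 1)).symm
      exact this
    rw [h1]
    simp_rw [hc]
    have hB : ∀ d, B (face (k + 1 + 1)) a d
        = (if a = d then 3 else 0) - 2 * s (face (k + 1 + 1)) a * s (face (k + 1 + 1)) d :=
      fun d => rfl
    simp_rw [hB]
    -- write `B = s sᵀ + 3 (δ - s sᵀ)`
    refine ⟨∑ d, ((if a = d then 1 else 0) - s (face (k + 1 + 1)) a * s (face (k + 1 + 1)) d) *
      ((-1) ^ k * (s (face (k + 1)) d * s (face 1) b) + 3 * c d)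
      + ∑ d, s (face (k + 1 + 1)) a * s (face (k + 1 + 1)) d * c d, ?_⟩
    have key : ∀ d, ((if a = d then (3 : ℤ) else 0)
        - 2 * s (face (k + 1 + 1)) a * s (face (k + 1 + 1)) d) *
          ((-1) ^ k * (s (face (k + 1)) d * s (face 1) b) + 3 * c d)
        = (-1) ^ k * (s (face (k + 1 + 1)) a * s (face 1) b) *
            (s (face (k + 1 + 1)) d * s (face (k + 1)) d)
          + 3 * (((if a = d then 1 else 0) - s (face (k + 1 + 1)) a * s (face (k + 1 + 1)) d) *
            ((-1) ^ k * (s (face (k + 1)) d * s (face 1) b) + 3 * c d))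
          + 3 * (s (face (k + 1 + 1)) a * s (face (k + 1 + 1)) d * c d) := by
      intro d
      split_ifs <;> ring
    simp_rw [key]
    rw [Finset.sum_add_distrib, Finset.sum_add_distrib, ← Finset.mul_sum, ← Finset.mul_sum,
      ← Finset.mul_sum, hdot]
    ring

/-- The algebraic heart. -/
theorem not_odd (face : ℕ → Fin 4) (hf : ∀ k, face k ≠ face (k + 1)) (k : ℕ)
    (hcyc : face (k + 1) ≠ face 1) (x : Fin 3 → ℝ) (hx : x ≠ 0) (hPx : P face (k + 1) *ᵥ x = x) :
    Even (k + 1) := by
  by_contra hodd
  rw [Nat.not_even_iff_odd] at hodd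
  have h1 := trace_eq_one (P face (k + 1)) (P_orth face (k + 1))
    (by rw [P_det, hodd.neg_one_pow]) x hx hPx
  have h2 : ((Q face (k + 1)).trace : ℝ) = 3 ^ (k + 1) := by
    have h3 : ((Q face (k + 1)).trace : ℝ) = ((Q face (k + 1)).map (Int.cast : ℤ → ℝ)).trace := by
      simp [Matrix.trace, Matrix.diag]
    rw [h3, Q_eq, trace_smul, h1, smul_eq_mul, mul_one]
  have h4 : (Q face (k + 1)).trace = 3 ^ (k + 1) := by exact_mod_cast h2
  choose c hc using fun a => Q_mod face hf k a a
  have h5 : (Q face (k + 1)).trace = (-1) ^ k * (-1) + 3 * ∑ a, c a := by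
    have hdot : ∑ d, s (face (k + 1)) d * s (face 1) d = -1 := s_dot hcyc
    simp only [Matrix.trace, Matrix.diag]
    simp_rw [hc]
    rw [Finset.sum_add_distrib, ← Finset.mul_sum, ← Finset.mul_sum, hdot]
  rw [h5, pow_succ' (3 : ℤ)] at h4
  rcases neg_one_pow_eq_or ℤ k with h6 | h6
  · rw [h6] at h4; omega
  · rw [h6] at h4; omega

/-! ### Geometry -/

variable (T : Affine.Simplex ℝ E3 3)

theorem weights_face {i : Fin 4} {q : E3} (hq : q ∈ (T.faceOpposite i).interior) :
    ∃ w : Fin 4 → ℝ, ∑ j, w j = 1 ∧ Finset.univ.affineCombination ℝ T.points w = q ∧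
      w i = 0 ∧ ∀ j, j ≠ i → 0 < w j := by
  have h1 : q ∈ affineSpan ℝ (Set.range (T.faceOpposite i).points) :=
    Affine.Simplex.setInterior_subset_affineSpan hq
  have h2 : q ∈ affineSpan ℝ (Set.range T.points) := T.affineSpan_faceOpposite_le i h1
  obtain ⟨w, hw1, rfl⟩ := eq_affineCombination_of_mem_affineSpan_of_fintype h2
  refine ⟨w, hw1, rfl, ?_, ?_⟩
  · exact (Affine.Simplex.affineCombination_mem_affineSpan_faceOpposite_iff hw1).mp h1
  · have h3 := (T.affineCombination_mem_interior_face_iff_mem_Ioo (fs := {i}ᶜ) (m := 2)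
      (by simp [Finset.card_compl]) hw1).mp hq
    intro j hj
    exact (h3.1 j (by simpa using hj)).1

theorem face_unique {i j : Fin 4} {q : E3} (hi : q ∈ (T.faceOpposite i).interior)
    (hj : q ∈ (T.faceOpposite j).interior) : i = j := by
  by_contra hne
  obtain ⟨w, hw1, hwq, hwi, -⟩ := weights_face T hi
  obtain ⟨w', hw1', hwq', -, hwj'⟩ := weights_face T hj
  have h1 := (affineIndependent_iff_eq_of_fintype_affineCombination_eq ℝ T.points).1
    T.independent w w' hw1 hw1' (hwq.trans hwq'.symm)
  have h2 := hwj' i hne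
  rw [← h1, hwi] at h2
  exact lt_irrefl _ h2

theorem face_ne {face : ℕ → Fin 4} {q v : ℕ → E3} (h : IsBilliardTrajectory T face q v) (k : ℕ) :
    face k ≠ face (k + 1) := by
  intro heq
  have h1 : q k ∈ affineSpan ℝ (Set.range (T.faceOpposite (face k)).points) :=
    Affine.Simplex.setInterior_subset_affineSpan (h.mem_face k)
  have h2 : q (k + 1) ∈ affineSpan ℝ (Set.range (T.faceOpposite (face k)).points) := by
    rw [heq]
    exact Affine.Simplex.setInterior_subset_affineSpan (h.mem_face (k + 1))
  have hmid : AffineMap.lineMap (q k) (q (k + 1)) (1 / 2 : ℝ) ∈ openSegment ℝ (q k) (q (k + 1)) := by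
    rw [openSegment_eq_image_lineMap]
    exact ⟨1 / 2, by constructor <;> norm_num, rfl⟩
  have h3 := h.inside k hmid
  have h4 : AffineMap.lineMap (q k) (q (k + 1)) (1 / 2 : ℝ) ∈
      affineSpan ℝ (Set.range (T.faceOpposite (face k)).points) :=
    AffineMap.lineMap_mem _ h1 h2
  have h5 := T.affineSpan_faceOpposite_le (face k) h4
  obtain ⟨w, hw1, hw⟩ := eq_affineCombination_of_mem_affineSpan_of_fintype h5
  rw [hw] at h3 h4
  have h6 := (Affine.Simplex.affineCombination_mem_interior_iff hw1).mp h3 (face k)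
  have h7 := (Affine.Simplex.affineCombination_mem_affineSpan_faceOpposite_iff hw1).mp h4
  rw [h7] at h6
  exact lt_irrefl _ h6.1

/-- The vectors of the adapted orthonormal basis. -/
theorem exists_basis (hT : T.Equilateral) :
    ∃ (b : OrthonormalBasis (Fin 3) ℝ E3) (r : ℝ), 0 < r ∧
      T.points 0 - T.points 1 = r • (b 1 + b 2) ∧
      T.points 0 - T.points 2 = r • (b 0 + b 2) ∧
      T.points 0 - T.points 3 = r • (b 0 + b 1) ∧
      T.points 1 - T.points 2 = r • (b 0 - b 1) ∧
      T.points 1 - T.points 3 = r • (b 0 - b 2) ∧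
      T.points 2 - T.points 3 = r • (b 1 - b 2) := by
  obtain ⟨a, ha⟩ := hT
  have hne : T.points 0 ≠ T.points 1 := T.independent.injective.ne (by decide)
  have ha0 : 0 < a := by rw [← ha 0 1 (by decide)]; exact dist_pos.mpr hne
  -- inner products
  set x := T.points 1 - T.points 0 with hx
  set y := T.points 2 - T.points 0 with hy
  set z := T.points 3 - T.points 0 with hz
  have nx : inner ℝ x x = a ^ 2 := by
    rw [real_inner_self_eq_norm_sq, hx, ← dist_eq_norm, ha 1 0 (by decide)]
  have ny : inner ℝ y y = a ^ 2 := by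
    rw [real_inner_self_eq_norm_sq, hy, ← dist_eq_norm, ha 2 0 (by decide)]
  have nz : inner ℝ z z = a ^ 2 := by
    rw [real_inner_self_eq_norm_sq, hz, ← dist_eq_norm, ha 3 0 (by decide)]
  have exy : x - y = T.points 1 - T.points 2 := by rw [hx, hy]; abel
  have exz : x - z = T.points 1 - T.points 3 := by rw [hx, hz]; abel
  have eyz : y - z = T.points 2 - T.points 3 := by rw [hy, hz]; abel
  have nxy : inner ℝ (x - y) (x - y) = a ^ 2 := by
    rw [real_inner_self_eq_norm_sq, exy, ← dist_eq_norm, ha 1 2 (by decide)]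
  have nxz : inner ℝ (x - z) (x - z) = a ^ 2 := by
    rw [real_inner_self_eq_norm_sq, exz, ← dist_eq_norm, ha 1 3 (by decide)]
  have nyz : inner ℝ (y - z) (y - z) = a ^ 2 := by
    rw [real_inner_self_eq_norm_sq, eyz, ← dist_eq_norm, ha 2 3 (by decide)]
  have cxy : inner ℝ y x = inner ℝ x y := real_inner_comm _ _
  have cxz : inner ℝ z x = inner ℝ x z := real_inner_comm _ _
  have cyz : inner ℝ z y = inner ℝ y z := real_inner_comm _ _
  simp only [inner_sub_left, inner_sub_right] at nxy nxz nyz
  have ixy : inner ℝ x y = a ^ 2 / 2 := by linarith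
  have ixz : inner ℝ x z = a ^ 2 / 2 := by linarith
  have iyz : inner ℝ y z = a ^ 2 / 2 := by linarith
  -- the basis
  have hs2 : 0 < √(2 : ℝ) := by positivity
  have hs2' : √(2 : ℝ) * √2 = 2 := Real.mul_self_sqrt (by norm_num)
  set c : ℝ := 1 / (√2 * a) with hc
  have hc0 : 0 < c := by positivity
  have hcc : c * c * (2 * a ^ 2) = 1 := by
    rw [hc]
    field_simp
    nlinarith
  have d00 : inner ℝ (x - y - z) (x - y - z) = 2 * a ^ 2 := by
    simp only [inner_sub_left, inner_sub_right]; linarith
  have d11 : inner ℝ (y - x - z) (y - x - z) = 2 * a ^ 2 := by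
    simp only [inner_sub_left, inner_sub_right]; linarith
  have d22 : inner ℝ (z - x - y) (z - x - y) = 2 * a ^ 2 := by
    simp only [inner_sub_left, inner_sub_right]; linarith
  have d01 : inner ℝ (x - y - z) (y - x - z) = 0 := by
    simp only [inner_sub_left, inner_sub_right]; linarith
  have d02 : inner ℝ (x - y - z) (z - x - y) = 0 := by
    simp only [inner_sub_left, inner_sub_right]; linarith
  have d12 : inner ℝ (y - x - z) (z - x - y) = 0 := by
    simp only [inner_sub_left, inner_sub_right]; linarith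
  set X := x - y - z with hX
  set Y := y - x - z with hY
  set Z := z - x - y with hZ
  have sm : ∀ (u w : E3), inner ℝ (c • u) (c • w) = c * c * inner ℝ u w := by
    intro u w
    rw [real_inner_smul_left, real_inner_smul_right]; ring
  let e : Fin 3 → E3 := ![c • X, c • Y, c • Z]
  have he : Orthonormal ℝ e := by
    rw [orthonormal_iff_ite]
    intro i j
    fin_cases i <;> fin_cases j
    · show inner ℝ (c • X) (c • X) = 1
      rw [sm, d00, hcc]
    · show inner ℝ (c • X) (c • Y) = 0
      rw [sm, d01, mul_zero]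
    · show inner ℝ (c • X) (c • Z) = 0
      rw [sm, d02, mul_zero]
    · show inner ℝ (c • Y) (c • X) = 0
      rw [sm, real_inner_comm, d01, mul_zero]
    · show inner ℝ (c • Y) (c • Y) = 1
      rw [sm, d11, hcc]
    · show inner ℝ (c • Y) (c • Z) = 0
      rw [sm, d12, mul_zero]
    · show inner ℝ (c • Z) (c • X) = 0
      rw [sm, real_inner_comm, d02, mul_zero]
    · show inner ℝ (c • Z) (c • Y) = 0
      rw [sm, real_inner_comm, d12, mul_zero]
    · show inner ℝ (c • Z) (c • Z) = 1
      rw [sm, d22, hcc]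
  let b0 := basisOfOrthonormalOfCardEqFinrank he (by simp)
  have hb0 : ⇑b0 = e := coe_basisOfOrthonormalOfCardEqFinrank he _
  let b : OrthonormalBasis (Fin 3) ℝ E3 := b0.toOrthonormalBasis (by rw [hb0]; exact he)
  have hb : ∀ i, b i = e i := fun i => by
    have : ⇑b = ⇑b0 := Module.Basis.coe_toOrthonormalBasis b0 _
    rw [this, hb0]
  refine ⟨b, 1 / (2 * c), by positivity, ?_, ?_, ?_, ?_, ?_, ?_⟩
  all_goals simp only [hb]
  · have : T.points 0 - T.points 1 = -x := by rw [hx]; abel
    rw [this]
    have e1 : e 1 + e 2 = (-(2 * c)) • x := by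
      show c • Y + c • Z = _
      rw [hY, hZ]; module
    rw [e1, smul_smul]
    have : 1 / (2 * c) * (-(2 * c)) = -1 := by field_simp
    rw [this]; module
  · have : T.points 0 - T.points 2 = -y := by rw [hy]; abel
    rw [this]
    have e1 : e 0 + e 2 = (-(2 * c)) • y := by
      show c • X + c • Z = _
      rw [hX, hZ]; module
    rw [e1, smul_smul]
    have : 1 / (2 * c) * (-(2 * c)) = -1 := by field_simp
    rw [this]; module
  · have : T.points 0 - T.points 3 = -z := by rw [hz]; abel
    rw [this]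
    have e1 : e 0 + e 1 = (-(2 * c)) • z := by
      show c • X + c • Y = _
      rw [hX, hY]; module
    rw [e1, smul_smul]
    have : 1 / (2 * c) * (-(2 * c)) = -1 := by field_simp
    rw [this]; module
  · rw [← exy]
    have e1 : e 0 - e 1 = (2 * c) • (x - y) := by
      show c • X - c • Y = _
      rw [hX, hY]; module
    rw [e1, smul_smul]
    have : 1 / (2 * c) * (2 * c) = 1 := by field_simp
    rw [this]; module
  · rw [← exz]
    have e1 : e 0 - e 2 = (2 * c) • (x - z) := by
      show c • X - c • Z = _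
      rw [hX, hZ]; module
    rw [e1, smul_smul]
    have : 1 / (2 * c) * (2 * c) = 1 := by field_simp
    rw [this]; module
  · rw [← eyz]
    have e1 : e 1 - e 2 = (2 * c) • (y - z) := by
      show c • Y - c • Z = _
      rw [hY, hZ]; module
    rw [e1, smul_smul]
    have : 1 / (2 * c) * (2 * c) = 1 := by field_simp
    rw [this]; module

/-- coordinates of a vector -/
noncomputable def co (b : OrthonormalBasis (Fin 3) ℝ E3) (x : E3) : Fin 3 → ℝ :=
  fun c => inner ℝ x (b c)

theorem inner_eq (b : OrthonormalBasis (Fin 3) ℝ E3) (x y : E3) :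
    inner ℝ x y = ∑ c, co b x c * co b y c := by
  rw [← b.sum_inner_mul_inner x y]
  apply Finset.sum_congr rfl
  intro c _
  rw [co, co, real_inner_comm y (b c)]

/-- The normal vectors of the faces in coordinates. -/
theorem normal_coords (b : OrthonormalBasis (Fin 3) ℝ E3) (r : ℝ) (hr : 0 < r)
    (h01 : T.points 0 - T.points 1 = r • (b 1 + b 2))
    (h02 : T.points 0 - T.points 2 = r • (b 0 + b 2))
    (h03 : T.points 0 - T.points 3 = r • (b 0 + b 1))
    (h12 : T.points 1 - T.points 2 = r • (b 0 - b 1))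
    (h13 : T.points 1 - T.points 3 = r • (b 0 - b 2))
    (i : Fin 4) (n : E3)
    (hn : ∀ j k, j ≠ i → k ≠ i → inner ℝ n (T.points j - T.points k) = 0) :
    ∃ y : ℝ, ∀ c, co b n c = y * s i c := by
  have c01 : i ≠ 0 → i ≠ 1 → co b n 1 + co b n 2 = 0 := by
    intro h1 h2
    have := hn 0 1 h1.symm h2.symm
    rw [h01, inner_smul_right, inner_add_right] at this
    exact (mul_eq_zero.mp this).resolve_left hr.ne'
  have c02 : i ≠ 0 → i ≠ 2 → co b n 0 + co b n 2 = 0 := by
    intro h1 h2
    have := hn 0 2 h1.symm h2.symm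
    rw [h02, inner_smul_right, inner_add_right] at this
    exact (mul_eq_zero.mp this).resolve_left hr.ne'
  have c03 : i ≠ 0 → i ≠ 3 → co b n 0 + co b n 1 = 0 := by
    intro h1 h2
    have := hn 0 3 h1.symm h2.symm
    rw [h03, inner_smul_right, inner_add_right] at this
    exact (mul_eq_zero.mp this).resolve_left hr.ne'
  have c12 : i ≠ 1 → i ≠ 2 → co b n 0 - co b n 1 = 0 := by
    intro h1 h2
    have := hn 1 2 h1.symm h2.symm
    rw [h12, inner_smul_right, inner_sub_right] at this
    exact (mul_eq_zero.mp this).resolve_left hr.ne'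
  have c13 : i ≠ 1 → i ≠ 3 → co b n 0 - co b n 2 = 0 := by
    intro h1 h2
    have := hn 1 3 h1.symm h2.symm
    rw [h13, inner_smul_right, inner_sub_right] at this
    exact (mul_eq_zero.mp this).resolve_left hr.ne'
  fin_cases i
  · have a1 := c12 (by decide) (by decide)
    have a2 := c13 (by decide) (by decide)
    refine ⟨co b n 0, fun c => ?_⟩
    fin_cases c <;> simp [s] <;> linarith
  · have a1 := c02 (by decide) (by decide)
    have a2 := c03 (by decide) (by decide)
    refine ⟨co b n 0, fun c => ?_⟩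
    fin_cases c <;> simp [s] <;> linarith
  · have a1 := c01 (by decide) (by decide)
    have a2 := c03 (by decide) (by decide)
    refine ⟨co b n 1, fun c => ?_⟩
    fin_cases c <;> simp [s] <;> linarith
  · have a1 := c01 (by decide) (by decide)
    have a2 := c02 (by decide) (by decide)
    refine ⟨co b n 2, fun c => ?_⟩
    fin_cases c <;> simp [s] <;> linarith

/-- The effect of a bounce in coordinates. -/
theorem bounce_coords (b : OrthonormalBasis (Fin 3) ℝ E3) (i : Fin 4) (n v v' : E3) (y : ℝ)
    (hn1 : ‖n‖ = 1) (hy : ∀ c, co b n c = y * s i c)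
    (hv : v' = v - (2 * inner ℝ v n) • n) : co b v' = A i *ᵥ co b v := by
  have hy2 : 3 * y ^ 2 = 1 := by
    have h1 : inner ℝ n n = (1 : ℝ) := by rw [real_inner_self_eq_norm_sq, hn1]; norm_num
    rw [inner_eq b, Fin.sum_univ_three, hy, hy, hy] at h1
    fin_cases i <;> simp [s] at h1 <;> linarith
  have h2 : inner ℝ v n = y * ∑ c, co b v c * s i c := by
    rw [inner_eq b, Finset.mul_sum]
    apply Finset.sum_congr rfl
    intro c _
    rw [hy]; ring
  funext a
  have h3 : co b v' a = co b v a - 2 * inner ℝ v n * co b n a := by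
    rw [co, hv, inner_sub_left, inner_smul_left]
    simp [co]
  rw [h3, h2, hy]
  have h4 : (A i *ᵥ co b v) a = co b v a - 2 / 3 * s i a * ∑ c, co b v c * s i c := by
    simp only [mulVec, dotProduct, A, of_apply, Fin.sum_univ_three]
    fin_cases a <;> simp <;> ring
  rw [h4]
  linear_combination (-2 / 3 * (s i a : ℝ) * ∑ c, co b v c * s i c) * hy2

/-- **Q2.**  Every periodic billiard orbit in a regular tetrahedron has an even number of bounces. -/
theorem result (T : Affine.Simplex ℝ E3 3) (hT : T.Equilateral) (n : ℕ)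
    (h : HasPeriodicOrbit T n) : Even n := by
  obtain ⟨face, q, v, hO, ⟨hn1, hnq, hnv⟩, -⟩ := h
  obtain ⟨b, r, hr, h01, h02, h03, h12, h13, h23⟩ := exists_basis T hT
  have hf := face_ne T hO
  have hstep : ∀ k, co b (v (k + 1)) = A (face (k + 1)) *ᵥ co b (v k) := by
    intro k
    obtain ⟨m, hm1, hm2, hm3⟩ := hO.bounce k
    obtain ⟨y, hy⟩ := normal_coords T b r hr h01 h02 h03 h12 h13 (face (k + 1)) m hm2
    exact bounce_coords b (face (k + 1)) m (v k) (v (k + 1)) y hm1 hy hm3
  have hP : ∀ k, co b (v k) = P face k *ᵥ co b (v 0) := by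
    intro k
    induction k with
    | zero => simp [P]
    | succ k ih => rw [hstep, ih, P, mulVec_mulVec]
  have hne : co b (v 0) ≠ 0 := by
    intro h0
    have h1 : inner ℝ (v 0) (v 0) = (1 : ℝ) := by
      rw [real_inner_self_eq_norm_sq, hO.unit 0]; norm_num
    rw [inner_eq b, h0] at h1
    simp at h1
  obtain ⟨k, rfl⟩ : ∃ k, n = k + 1 := ⟨n - 1, by omega⟩
  have h0n : face (k + 1) = face 0 := by
    apply face_unique T (q := q 0)
    · rw [← hnq]; exact hO.mem_face (k + 1)
    · exact hO.mem_face 0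
  refine not_odd face hf k ?_ (co b (v 0)) hne ?_
  · rw [h0n]; exact hf 0
  · rw [← hP, hnv]

end Pool.Agent.Results.MP_aceab8_an.EvenBounces
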